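import Pool.Agent.H219.WhP.Van

/-!
# Traces of invertible matrices over group rings over fields of positive characteristic
-/

set_option autoImplicit false

namespace Pool.Agent.Results.MP_490288_al.TraceCharP

open H219.WhC H219.WhP

universe u v w

/-- Let `K` be a field of characteristic `p > 0` and `Γ` a group such that for every finitely
generated subgroup `H` and every `g ≠ 1` in `H` one has `g ^ p ≠ 1` and `g` is not conjugate in
`H` to `g ^ (p ^ j)` for `j ≥ 1` (for example a torsion-free group which is locally residually a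
finite `p`-group, or in which infinite cyclic subgroups are undistorted). Then for every
invertible matrix `A` over `K[Γ]` there is `γ ∈ Γ` such that every Hochschild `1`-cocycle `f` on
`K[Γ]` with values in a vector space and with `f (g ^ m) g = 0` for all `g` and `m ≥ 0` takes the
same value on the Dennis trace of `A` and on that of `γ`. -/
theorem result (p : ℕ) [Fact p.Prime] (K : Type u) [Field K] [CharP K p]
    (Γ : Type v) [Group Γ]
    (hΓ : ∀ H : Subgroup Γ, H.FG → ∀ g ∈ H, g ≠ 1 → g ^ p ≠ 1 ∧
      ∀ j, 1 ≤ j → ∀ c ∈ H, c * g * c⁻¹ ≠ g ^ p ^ j)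
    (n : ℕ) (A : (Matrix (Fin n) (Fin n) (MonoidAlgebra K Γ))ˣ) :
    ∃ γ : Γ, ∀ (M : Type w) [AddCommGroup M] [Module K M] (f : Γ → Γ → M),
      (∀ x y z : Γ, f (x * y) z - f x (y * z) + f (z * x) y = 0) →
      (∀ (g : Γ) (m : ℕ), f (g ^ m) g = 0) →
      (∑ i, ∑ j, ((A⁻¹).val i j).coeff.sum fun g b =>
          (A.val j i).coeff.sum fun h a => (b * a) • f g h) = f γ⁻¹ γ :=
  charp_module A hΓ

end Pool.Agent.Results.MP_490288_al.TraceCharP
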